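import Pool.Agent.W_4481e3_q87.GoR
import Pool.Agent.W_4481e3_tab.T5

/-!
Tree s12o5, data 14.
-/

namespace Pool.Agent.W_4481e3_rt.s12o5

open Pool.Agent.W_4481e3_q25.EvR

theorem k295 : ckO Pool.Agent.W_4481e3_tab.T5.tab 55520 88320 134217728 524288 742195 1048576 5 1572864 524288 2621440 524288 515354132 515354132 7172260 7172260 268435456 268435456 16777216 16777216 1059062 1059062 0x102000c02000c02000c1202000c02000c03000c202000c03000c2121 = true := by decide +kernel

theorem k298 : ckO Pool.Agent.W_4481e3_tab.T5.tab 55520 88320 134217728 524288 742195 1048576 5 1572864 524288 2621440 524288 522526392 493837352 14344520 14344520 268435456 268435456 16777216 16777216 1059062 1059062 0x100000c00003c00003c0106fc21200003c01004c01004c121 = true := by decide +kernel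

theorem k300 : ckO Pool.Agent.W_4481e3_tab.T5.tab 55520 88320 134217728 524288 742195 1048576 8 1572864 524288 2621440 524288 493837352 508181872 14344520 28689040 268435456 268435456 16777216 16777216 1059062 1059062 0x100000c00000c00003c00003c00027c00003c00027c02004c2121212 = true := by decide +kernel

end Pool.Agent.W_4481e3_rt.s12o5
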