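import Pool.Agent.W_4481e3_q87.GoR
import Pool.Agent.W_4481e3_tab.T5

/-!
Tree s12o5, data 6.
-/

namespace Pool.Agent.W_4481e3_rt.s12o5

open Pool.Agent.W_4481e3_q25.EvR

theorem k124 : ckR Pool.Agent.W_4481e3_tab.T5.tab 55520 134217728 524288 742195 14 1572864 524288 2621440 524288 577295531 531572373 977189 1873722 268456619 268454621 16247685 16777216 529531 1059062 0x105038c05038cb205038cb21205038c05015c05038c2105038c05038cb205038cb21205038c07000c107000cb07000cb21207038c07038cb207038c07038c1b08038cb21b6bb6521212121bbbb1b21b212 = true := by decide +kernel

theorem k128 : ckO Pool.Agent.W_4481e3_tab.T5.tab 55520 88320 134217728 524288 742195 1048576 7 1572864 524288 2621440 524288 574363964 533446095 1954378 3747443 268456619 268454621 16247685 16777216 529531 1059062 0x1bb1b2b05038c1b205038cb21b21b2 = true := by decide +kernel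

theorem k131 : ckO Pool.Agent.W_4481e3_tab.T5.tab 55520 88320 134217728 524288 742195 1048576 10 1572864 524288 2621440 524288 576318342 525951209 3908755 3747443 268456619 268454621 16777216 16777216 1059062 1059062 0x103028c03000c104000c04000c1040e0cb06000c1204028c04028c106000c06000c121204000c04000c105015c05038c205015c05015c2121203000c03000c103028c03028c105015c05015c205015c05038c21203000c03000c105038c05038c05038c06000c21204028c04028c106000c06000c206000c06000c506000c06000c121212121 = true := by decide +kernel

theorem k134 : ckO Pool.Agent.W_4481e3_tab.T5.tab 55520 88320 134217728 524288 742195 1048576 10 1572864 524288 2621440 524288 569146082 529698652 3586130 7172260 268435456 268435456 16777216 16777216 1059062 1059062 0x103028c04028c04000c1203000c04000c21bb1b204028cb21b204000cb2040e0c1b21203000c04000c203000c03000c2104028c04028c1bb04028c1b21204000c04000c104028cb2040e0cb06000c1212121bbb212864d68393e7 = true := by decide +kernel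

theorem k136 : ckO Pool.Agent.W_4481e3_tab.T5.tab 55520 88320 134217728 524288 742195 1048576 5 1572864 524288 2621440 524288 572732212 515354132 7172260 7172260 268435456 268435456 16777216 16777216 1059062 1059062 0x102000c03000c03000c202000c03000c21202000c02000c03000c202000c03000c2121 = true := by decide +kernel

theorem k139 : ckO Pool.Agent.W_4481e3_tab.T5.tab 55520 88320 134217728 524288 742195 1048576 4 1572864 524288 2621440 524288 579904472 493837352 14344520 14344520 268435456 268435456 16777216 16777216 1059062 1059062 0x100000c01004c01004c120000ac1 = true := by decide +kernel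

theorem k141 : ckO Pool.Agent.W_4481e3_tab.T5.tab 55520 88320 134217728 524288 742195 1048576 24 1572864 524288 2621440 524288 561973822 529698652 3586130 7172260 268435456 268435456 16777216 16777216 1059062 1059062 0x104028c04028c07038c206038c1204028c06038c2107038c08038c208103c1bbb568539b8000e7bb685402800f275bbb508038c1b26bb65854bb7ffcf71208038c07038c108038c08038c1bb6b5208038cbb6b52121bb128559a7ff61704028c08038c06028c1206028c104004c4bb507038cb207038c1b2858e77feb671206038c07038c08038c08038c5208103c1206000c07038c21bb507038cb207038c1b2858e77feb67123857d57ffa9712040a0c06038c07000cb207000c1206000c06000c2121bbb51204028c06000c06000c1204000c04028c04028c12106000cb206000c1b206000cb212185de5801c37b2040a0c04000c106000c06000c2040a0c05015c21204000c05038c21b05038cb2121b203028c04028c204000c105103c05038c1204000c05038c04000c04028c2121bbb1b286db583577712186e1381bb87b2 = true := by decide +kernel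

theorem k142 : ckO Pool.Agent.W_4481e3_tab.T5.tab 55520 88320 134217728 524288 742195 1048576 1 1572864 524288 2621440 524288 554801562 533284782 3586130 3586130 268435456 268435456 16777216 16777216 1059062 1059062 0x1b = true := by decide +kernel

theorem k143 : ckO Pool.Agent.W_4481e3_tab.T5.tab 55520 88320 134217728 524288 742195 1048576 1 1572864 524288 2621440 524288 556594627 527905587 1793065 1793065 268435456 268435456 16777216 16777216 1059062 1059062 0x1b = true := by decide +kernel

theorem k144 : ckO Pool.Agent.W_4481e3_tab.T5.tab 55520 88320 134217728 524288 742195 1048576 1 1572864 524288 2621440 524288 557491160 525215990 896533 896533 268435456 268435456 16777216 16777216 1059062 1059062 0x1b = true := by decide +kernel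

end Pool.Agent.W_4481e3_rt.s12o5
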